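import Pool.Agent.H119.OneBend.Extract

/-!
# MP_40073f_co, Q1: the one-bend volume of `K_n` is of order `n³`

`GridBox`, `Route` (an orthogonal route with at most one bend), `OneBendDrawing` (boxes pairwise
disjoint, routes start and end on the surfaces of the boxes of their ends, meet no box otherwise,
and are pairwise disjoint), `volume` and `V₁` are defined in
`Pool.Agent.H119.OneBend.Defs`, following the problem file.

The theorem states `n³ / 10³⁰ ≤ V₁ n` for all `n`, `V₁ n ≤ 2 n³` for `n ≥ 1`
(the drawing of Biedl et al.), and hence `V₁ n = Θ(n³)`.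
-/

namespace Pool.Agent.Results.MP_40073f_co.CubicVolume

open Pool.Agent.H119.OneBend Filter Asymptotics

/-- The minimum volume `V₁ n` of a 3D orthogonal 1-bend box-drawing of `K_n` is `Θ(n³)`. -/
theorem result :
    (∀ n : ℕ, (n : ℝ) ^ 3 / 10 ^ 30 ≤ V₁ n) ∧
    (∀ n : ℕ, 1 ≤ n → V₁ n ≤ 2 * n ^ 3) ∧
    (fun n : ℕ => (V₁ n : ℝ)) =Θ[atTop] (fun n : ℕ => (n : ℝ) ^ 3) := by
  refine ⟨V₁_lower, V₁_upper, ?_, ?_⟩
  · refine IsBigO.of_bound 2 ?_
    filter_upwards [eventually_ge_atTop 1] with n hn
    have h : (V₁ n : ℝ) ≤ ((2 * n ^ 3 : ℕ) : ℝ) := by exact_mod_cast V₁_upper n hn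
    push_cast at h
    rw [Real.norm_of_nonneg (by positivity), Real.norm_of_nonneg (by positivity)]
    exact h
  · refine IsBigO.of_bound (10 ^ 30) ?_
    filter_upwards with n
    have h := V₁_lower n
    rw [Real.norm_of_nonneg (by positivity), Real.norm_of_nonneg (by positivity)]
    rw [div_le_iff₀ (by positivity)] at h
    linarith

end Pool.Agent.Results.MP_40073f_co.CubicVolume
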